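import Pool.Agent.Q162.RR.Ckl1

/-! Job CKL of project RR (helper17): the numbers of characters of the subgroups `Lw m L`. -/

set_option autoImplicit false

open scoped Classical

noncomputable section

namespace Pool.Agent.Q162.RR

open Pool.Agent.H254R3.IN hiding NN
open Pool.Agent.Y63.KR Pool.Agent.Q17.WR Pool.Agent.Q17.DC Pool.Agent.Q17.AM Pool.Agent.Q17.OS
open Pool.Agent.Q17.DM Pool.Agent.Q17.RB Pool.Agent.Q17.RR
open Pool.Agent.Q162.AM
open Pool.Agent.Q14.DM (eW sum_eW fsum_sub)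

theorem Mp_symm {G : Type} {s : ℂ ≃+* ℂ} {B B' : Set (G → ℂ)} (h : Mp s B B') :
    Mp s⁻¹ B' B := by
  intro χ
  rw [h (fun g => s⁻¹ (χ g))]
  have h1 : (fun g => s (s⁻¹ (χ g))) = χ := by
    funext g
    exact s.apply_symm_apply (χ g)
  rw [h1]

theorem Mp_trans {G : Type} {s t : ℂ ≃+* ℂ} {B B' B'' : Set (G → ℂ)} (h : Mp s B B')
    (h' : Mp t B' B'') : Mp (t * s) B B'' := by
  intro χ
  rw [h χ, h' (fun g => s (χ g))]
  rfl

theorem Mp_eq {G : Type} {s : ℂ ≃+* ℂ} {B B' B'' : Set (G → ℂ)} (h : Mp s B B')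
    (h' : Mp s B B'') : B' = B'' := by
  ext χ
  have h1 : (fun g => s (s⁻¹ (χ g))) = χ := by
    funext g
    exact s.apply_symm_apply (χ g)
  have h2 := h (fun g => s⁻¹ (χ g))
  have h3 := h' (fun g => s⁻¹ (χ g))
  rw [h1] at h2 h3
  rw [← h2, h3]

section

variable {p q : ℕ} [Fact p.Prime] [Fact q.Prime] {G : Type} [Group G] [Fintype G]
  {O : ValuationSubring ℂ} {D : Subgroup G} {β : Cy q → Set (G → ℂ)}

theorem eq_of_Ind (hG : S_GCK) (hF : Fam p q O D β) (L : Subgroup G) {θ : L → ℂ}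
    (hθ : IsIrr θ) {a b : Cy q} (h1 : Ind O (β a) Set.univ L θ)
    (h2 : Ind O (β b) Set.univ L θ) : a = b :=
  hF.inj ((hG G O 1 (β a) (β b) (hF.blk _) (hF.blk _) L).2.1 θ hθ h1 h2)

theorem Ind_gal (hG : S_GCK) (hF : Fam p q O D β) (L : Subgroup G) {θ : L → ℂ}
    (hθ : IsIrr θ) {a b : Cy q} {s : ℂ ≃+* ℂ} (hs : Mp s (β a) (β b))
    (h : Ind O (β a) Set.univ L θ) : Ind O (β b) Set.univ L (ac s θ) :=
  (hG G O s (β a) (β b) (hF.blk _) (hF.blk _) L).1 hs θ hθ h

/-- a family of characters of `L` counted for the blocks `β ω` -/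
structure Fm (O : ValuationSubring ℂ) (β : Cy q → Set (G → ℂ)) (L : Subgroup G)
    (f : Cy q → L → ℂ) : Prop where
  irr : ∀ ω, IsIrr (f ω)
  ind : ∀ ω, Ind O (β ω) Set.univ L (f ω)

theorem Fm.ncn (hG : S_GCK) (hF : Fam p q O D β) {L : Subgroup G} {f : Cy q → L → ℂ}
    (h : Fm O β L f) : Ncn f := by
  obtain ⟨a, ha⟩ := exists_ne_one_Cy (r := q)
  refine ⟨1, a, fun h1 => ha ?_⟩
  have h2 := h.ind 1
  rw [h1] at h2
  exact (eq_of_Ind hG hF L (h.irr a) h2 (h.ind a)).symm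

theorem Fm.key (hC : S_CLS) (hG : S_GCK) (hF : Fam p q O D β) {L : Subgroup G} [Fintype L]
    {f f' : Cy q → L → ℂ} (h : Fm O β L f) (hf' : ∀ ω, IsIrr (f' ω)) {a : Cy q}
    (hI : ∀ ω, Ind O (β (a * ω)) Set.univ L (f' ω)) (he : nch f = nch f') :
    f' = fun ω => f (a * ω) := by
  obtain ⟨b, hb⟩ := (hC L q).2.2.2.1 f f' h.irr hf' (h.ncn hG hF) he
  have h1 : a * 1 = b * 1 := by
    have h2 := hI 1
    have h3 := h.ind (b * 1)
    have h4 : f' 1 = f (b * 1) := congrFun hb 1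
    rw [← h4] at h3
    exact eq_of_Ind hG hF L (hf' 1) h2 h3
  have h5 : a = b := mul_right_cancel h1
  rw [h5]
  exact hb

theorem Fm.Ind (hU : S_UNI) (hp : (p : ℂ) ∈ O.nonunits) (hF : Fam p q O D β)
    {L : Subgroup G} [Fintype L] {f : Cy q → L → ℂ} (h : Fm O β L f) (m : Cy q → G) :
    Ind O (FX β) {x | x.right = 1} (Lw m L) (fun y => nch f (eW m L y)) := by
  refine (Ind_iff hU hp hF L m f h.irr (nch f) fun x => Sg_nch _ f x).2 ⟨1, fun ω => ?_⟩
  rw [one_mul]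
  exact h.ind ω

/-- The characters of `Lw m L` which are counted. -/
theorem classify (hC : S_CLS) (hU : S_UNI) (hG : S_GCK) (hp : (p : ℂ) ∈ O.nonunits)
    (hF : Fam p q O D β) (L : Subgroup G) [Fintype L] (m : Cy q → G) {ψ : Lw m L → ℂ}
    (hψ : IsIrr ψ) (hI : Ind O (FX β) {x | x.right = 1} (Lw m L) ψ) :
    ∃ f : Cy q → L → ℂ, Fm O β L f ∧ ψ = fun y => nch f (eW m L y) := by
  have h1 := Q222.TC.irr_comp (eW m L).symm hψ
  have h2 : ψ = fun y => (fun x => ψ ((eW m L).symm x)) (eW m L y) := by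
    funext y
    change ψ y = ψ ((eW m L).symm (eW m L y))
    rw [MulEquiv.symm_apply_apply]
  rcases (hC L q).2.2.1 _ h1 with ⟨f, hf, hn, he⟩ | ⟨θ, hθ, l, he⟩
  · rw [he] at h2
    rw [h2] at hI
    obtain ⟨a, ha⟩ := (Ind_iff hU hp hF L m f hf (nch f) fun x => Sg_nch _ f x).1 hI
    refine ⟨shf f a⁻¹, ⟨fun ω => hf _, fun ω => ?_⟩, ?_⟩
    · have h3 := ha (a⁻¹ * ω)
      rw [mul_inv_cancel_left] at h3
      exact h3
    · rw [nch_shf]
      exact h2
  · exfalso
    rw [he] at h2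
    rw [h2] at hI
    obtain ⟨a, ha⟩ := (Ind_iff hU hp hF L m (fun _ => θ) (fun _ => hθ) (cch θ l)
      fun x => Sg_cch _ θ l x).1 hI
    obtain ⟨b, hb⟩ := exists_ne_one_Cy (r := q)
    exact hb (mul_left_cancel (eq_of_Ind hG hF L hθ (ha b) (ha 1)))

theorem nch_ext {L : Subgroup G} (m : Cy q → G) {f f' : Cy q → L → ℂ}
    (h : (fun y : Lw m L => nch f (eW m L y)) = fun y => nch f' (eW m L y)) :
    nch f = nch f' := by
  funext y
  have h1 := congrFun h ((eW m L).symm y)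
  change nch f (eW m L ((eW m L).symm y)) = nch f' (eW m L ((eW m L).symm y)) at h1
  rwa [MulEquiv.apply_symm_apply] at h1

theorem nch_fixed {L : Subgroup G} {f : Cy q → L → ℂ} {s : ℂ ≃+* ℂ} {a : Cy q}
    (h : ∀ ω, ac s (f ω) = f (a * ω)) (x : Wc L q) : s (nch f x) = nch f x := by
  have h1 : ac s (nch f) = nch f := by
    rw [ac_nch]
    have h2 : (fun ω => ac s (f ω)) = shf f a := funext h
    rw [h2, nch_shf]
  exact congrFun h1 x

theorem ckl_one (hC : S_CLS) (hU : S_UNI) (hG : S_GCK) (hp : (p : ℂ) ∈ O.nonunits)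
    (hF : Fam p q O D β) (K : Set (ℂ ≃+* ℂ)) (L : Subgroup G) (m : Cy q → G)
    (hK : ∀ s ∈ K, ∀ ω, St s (β ω)) :
    ck O (FX β) {x | x.right = 1} K (Lw m L) = ∏ ω, ck O (β ω) Set.univ K L := by
  let _ : Fintype L := Fintype.ofFinite _
  have hfin : ∀ ω, Finite {ψ : L → ℂ // Ck O (β ω) Set.univ K L ψ} :=
    fun ω => ck_fin _ _ _ _ _
  have h1 : ∏ ω, ck O (β ω) Set.univ K L =
      Nat.card (∀ ω : Cy q, {ψ : L → ℂ // Ck O (β ω) Set.univ K L ψ}) := by
    rw [Nat.card_pi]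
    rfl
  rw [h1]
  have hFm : ∀ f : (∀ ω : Cy q, {ψ : L → ℂ // Ck O (β ω) Set.univ K L ψ}),
      Fm O β L (fun ω => (f ω).1) := fun f => ⟨fun ω => (f ω).2.1, fun ω => (f ω).2.2.1⟩
  let g : (∀ ω : Cy q, {ψ : L → ℂ // Ck O (β ω) Set.univ K L ψ}) →
      {ψ : Lw m L → ℂ // Ck O (FX β) {x | x.right = 1} K (Lw m L) ψ} :=
    fun f => ⟨fun y => nch (fun ω => (f ω).1) (eW m L y),
      Q222.TC.irr_comp (eW m L) ((hC L q).1 _ (hFm f).irr ((hFm f).ncn hG hF)),
      (hFm f).Ind hU hp hF m, fun s hs y => nch_fixed (a := 1) (fun ω => by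
        rw [one_mul]
        funext x
        exact (f ω).2.2.2 s hs x) _⟩
  have hg : Function.Bijective g := by
    constructor
    · intro f f' h
      have h2 := nch_ext m (f := fun ω => (f ω).1) (f' := fun ω => (f' ω).1)
        (congrArg Subtype.val h)
      have h3 := (hFm f).key hC hG hF (f' := fun ω => (f' ω).1) (hFm f').irr (a := 1)
        (fun ω => by rw [one_mul]; exact (hFm f').ind ω) h2
      funext ω
      apply Subtype.ext
      have h4 : (f' ω).1 = (f (1 * ω)).1 := congrFun h3 ω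
      have h5 : ∀ a : Cy q, a = ω → (f a).1 = (f ω).1 := by
        rintro a rfl
        rfl
      rw [h4, h5 _ (one_mul ω)]
    · rintro ⟨ψ, hψ⟩
      obtain ⟨f, hf, rfl⟩ := classify hC hU hG hp hF L m hψ.1 hψ.2.1
      refine ⟨fun ω => ⟨f ω, hf.irr ω, hf.ind ω, fun s hs x => ?_⟩, rfl⟩
      have h2 : nch f = nch (fun ω => ac s (f ω)) := by
        rw [← ac_nch]
        funext y
        have h3 : s (nch f (eW m L ((eW m L).symm y))) = nch f (eW m L ((eW m L).symm y)) :=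
          hψ.2.2 s hs ((eW m L).symm y)
        rw [MulEquiv.apply_symm_apply] at h3
        exact h3.symm
      have h4 := hf.key hC hG hF (f' := fun ω => ac s (f ω)) (fun ω => irr_gal s (hf.irr ω))
        (a := 1) (fun ω => by
          rw [one_mul]
          exact Ind_gal hG hF L (hf.irr ω) (hK s hs ω) (hf.ind ω)) h2
      have h5 := congrFun (congrFun h4 ω) x
      simp only [one_mul] at h5
      exact h5
  exact (Nat.card_congr (Equiv.ofBijective g hg)).symm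

theorem ckl_two (hC : S_CLS) (hU : S_UNI) (hG : S_GCK) (hp : (p : ℂ) ∈ O.nonunits)
    (hF : Fam p q O D β) (K : Set (ℂ ≃+* ℂ)) (L : Subgroup G) (m : Cy q → G)
    (hK : Mv β K) :
    ck O (FX β) {x | x.right = 1} K (Lw m L) =
      ck O (β 1) Set.univ {s | s ∈ K ∧ St s (β 1)} L := by
  let _ : Fintype L := Fintype.ofFinite _
  choose t ht ht' using hK.onto
  let K₁ : Set (ℂ ≃+* ℂ) := {s | s ∈ K ∧ St s (β 1)}
  have hcomm : ∀ θ : {ψ : L → ℂ // Ck O (β 1) Set.univ K₁ L ψ}, ∀ s ∈ K, ∀ a : Cy q,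
      (∀ ω, Mp s (β ω) (β (a * ω))) → ∀ ω, ac s (ac (t ω) θ.1) = ac (t (a * ω)) θ.1 := by
    intro θ s hs a ha ω
    have h1 : Mp (t ω) (β 1) (β ω) := by
      have h2 := ht' ω 1
      rwa [mul_one] at h2
    have h2 : Mp (t (a * ω))⁻¹ (β (a * ω)) (β 1) := by
      have h3 := ht' (a * ω) 1
      rw [mul_one] at h3
      exact Mp_symm h3
    have h3 : (t (a * ω))⁻¹ * (s * t ω) ∈ K₁ :=
      ⟨hK.mul _ (hK.inv _ (ht _)) _ (hK.mul _ hs _ (ht _)), Mp_trans (Mp_trans h1 (ha ω)) h2⟩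
    funext x
    have h4 := θ.2.2.2 _ h3 x
    have h5 : (t (a * ω)) (((t (a * ω))⁻¹ * (s * t ω)) (θ.1 x)) = s (t ω (θ.1 x)) :=
      (t (a * ω)).apply_symm_apply _
    rw [h4] at h5
    exact h5.symm
  have hFm : ∀ θ : {ψ : L → ℂ // Ck O (β 1) Set.univ K₁ L ψ},
      Fm O β L (fun ω => ac (t ω) θ.1) := fun θ =>
    ⟨fun ω => irr_gal (t ω) θ.2.1, fun ω => by
      have h2 := ht' ω 1
      rw [mul_one] at h2
      exact Ind_gal hG hF L θ.2.1 h2 θ.2.2.1⟩
  let g : {ψ : L → ℂ // Ck O (β 1) Set.univ K₁ L ψ} →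
      {ψ : Lw m L → ℂ // Ck O (FX β) {x | x.right = 1} K (Lw m L) ψ} :=
    fun θ => ⟨fun y => nch (fun ω => ac (t ω) θ.1) (eW m L y),
      Q222.TC.irr_comp (eW m L) ((hC L q).1 _ (hFm θ).irr ((hFm θ).ncn hG hF)),
      (hFm θ).Ind hU hp hF m, fun s hs y => by
        obtain ⟨a, ha⟩ := hK.mv s hs
        exact nch_fixed (a := a) (fun ω => hcomm θ s hs a ha ω) _⟩
  have hg : Function.Bijective g := by
    constructor
    · intro θ θ' h
      have h2 := nch_ext m (f := fun ω => ac (t ω) θ.1) (f' := fun ω => ac (t ω) θ'.1)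
        (congrArg Subtype.val h)
      have h3 := (hFm θ).key hC hG hF (f' := fun ω => ac (t ω) θ'.1) (hFm θ').irr (a := 1)
        (fun ω => by rw [one_mul]; exact (hFm θ').ind ω) h2
      apply Subtype.ext
      funext x
      have h4 : t 1 (θ'.1 x) = t (1 * 1) (θ.1 x) := congrFun (congrFun h3 1) x
      rw [mul_one] at h4
      exact ((t 1).injective h4).symm
    · rintro ⟨ψ, hψ⟩
      obtain ⟨f, hf, rfl⟩ := classify hC hU hG hp hF L m hψ.1 hψ.2.1
      have hstar : ∀ s ∈ K, ∀ a : Cy q, (∀ ω, Mp s (β ω) (β (a * ω))) →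
          ∀ ω, ac s (f ω) = f (a * ω) := by
        intro s hs a ha ω
        have h2 : nch f = nch (fun ω => ac s (f ω)) := by
          rw [← ac_nch]
          funext y
          have h3 : s (nch f (eW m L ((eW m L).symm y))) =
              nch f (eW m L ((eW m L).symm y)) := hψ.2.2 s hs ((eW m L).symm y)
          rw [MulEquiv.apply_symm_apply] at h3
          exact h3.symm
        have h4 := hf.key hC hG hF (f' := fun ω => ac s (f ω))
          (fun ω => irr_gal s (hf.irr ω)) (a := a)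
          (fun ω => Ind_gal hG hF L (hf.irr ω) (ha ω) (hf.ind ω)) h2
        exact congrFun h4 ω
      refine ⟨⟨f 1, hf.irr 1, hf.ind 1, fun s hs x => ?_⟩, ?_⟩
      · obtain ⟨a, ha⟩ := hK.mv s hs.1
        have h5 : a * 1 = 1 := hF.inj (Mp_eq (ha 1) hs.2)
        have h6 := hstar s hs.1 a ha 1
        rw [h5] at h6
        exact congrFun h6 x
      · apply Subtype.ext
        change (fun y => nch (fun ω => ac (t ω) (f 1)) (eW m L y)) = fun y => nch f (eW m L y)
        have h7 : (fun ω => ac (t ω) (f 1)) = f := by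
          funext ω
          have h8 := hstar (t ω) (ht ω) ω (ht' ω) 1
          rw [mul_one] at h8
          exact h8
        rw [h7]
  exact (Nat.card_congr (Equiv.ofBijective g hg)).symm

end

theorem t_CKL : S_ZPR → S_CLS → S_UNI → S_GCK → S_CKL := by
  intro _ hC hU hG p q _ _ G _ _ O hp D β hF K L m
  exact ⟨fun hK => ckl_one hC hU hG hp hF K L m hK, fun hK => ckl_two hC hU hG hp hF K L m hK⟩

end Pool.Agent.Q162.RR
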