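import Pool.Agent.Q17.RR.Stm
import Pool.Agent.Q252.DM.CDM
import Pool.Agent.Q14.DM.Cdn4
import Pool.Agent.Q18.K.Tw

/-! Job CKW of project RR (helper17): the numbers of characters of products of subgroups. -/

set_option autoImplicit false

open scoped Classical

noncomputable section

namespace Pool.Agent.Q162.RR

open Pool.Agent.H254R3.IN hiding NN
open Pool.Agent.Y63.KR Pool.Agent.Q17.WR Pool.Agent.Q17.DC Pool.Agent.Q17.AM Pool.Agent.Q17.OS
open Pool.Agent.Q17.DM Pool.Agent.Q17.RB Pool.Agent.Q17.RR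
open Pool.Agent.Q252.DM (ePw pc pc_irr irr_pc pc_inj dp)

theorem irr_gal {Γ : Type} [Group Γ] (s : ℂ ≃+* ℂ) {χ : Γ → ℂ} (h : IsIrr χ) :
    IsIrr (fun g => s (χ g)) :=
  Pool.Agent.Q18.K.irr_gal s h

/-- the characters which are counted -/
def Ck {Γ : Type} [Group Γ] (O : ValuationSubring ℂ) (B : Set (Γ → ℂ)) (X : Set Γ)
    (K : Set (ℂ ≃+* ℂ)) (H : Subgroup Γ) (ψ : H → ℂ) : Prop :=
  IsIrr ψ ∧ Ind O B X H ψ ∧ ∀ s ∈ K, ∀ g, s (ψ g) = ψ g

theorem ck_fin {Γ : Type} [Group Γ] [Finite Γ] (O : ValuationSubring ℂ) (B : Set (Γ → ℂ))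
    (X : Set Γ) (K : Set (ℂ ≃+* ℂ)) (H : Subgroup Γ) :
    Finite {ψ : H → ℂ // Ck O B X K H ψ} := by
  have h := Pool.Agent.Q14.DM.irr_fin {ψ : H → ℂ | Ck O B X K H ψ} (fun ψ h => h.1)
  exact h.to_subtype

theorem pc_gal {G : Type} [Group G] {r : ℕ} [Fact r.Prime] (H : Cy r → Subgroup G)
    (f : ∀ ω, H ω → ℂ) (s : ℂ ≃+* ℂ) (x : Pw H) :
    s (pc H f x) = pc H (fun ω g => s (f ω g)) x := by
  unfold pc dp
  rw [map_prod]

theorem t_CKW : S_ZPR → S_UNI → S_GCK → S_CKW := by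
  intro _ hU hG p q _ _ G _ _ O hp D β hF K H
  have hfin : ∀ a ω, Finite {ψ : H ω → ℂ // Ck O (β (a * ω)) Set.univ K (H ω) ψ} :=
    fun a ω => ck_fin _ _ _ _ _
  have h1 : ∀ a : Cy q, ∏ ω, ck O (β (a * ω)) Set.univ K (H ω) =
      Nat.card (∀ ω, {ψ : H ω → ℂ // Ck O (β (a * ω)) Set.univ K (H ω) ψ}) := fun a => by
    rw [Nat.card_pi]
    rfl
  rw [Finset.sum_congr rfl fun a _ => h1 a, ← Nat.card_sigma]
  let g : (Σ a : Cy q, ∀ ω, {ψ : H ω → ℂ // Ck O (β (a * ω)) Set.univ K (H ω) ψ}) →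
      {ψ : Pw H → ℂ // Ck O (FX β) {x | x.right = 1} K (Pw H) ψ} :=
    fun x => ⟨pc H fun ω => (x.2 ω).1, pc_irr fun ω => (x.2 ω).2.1,
      (hU p q G O hp D β hF H _ fun ω => (x.2 ω).2.1).2 ⟨x.1, fun ω => (x.2 ω).2.2.1⟩,
      fun s hs y => by
        rw [pc_gal]
        congr 1
        funext ω g
        exact (x.2 ω).2.2.2 s hs g⟩
  have hg : Function.Bijective g := by
    constructor
    · rintro ⟨a, f⟩ ⟨a', f'⟩ h
      have h2 := pc_inj (fun ω => (f ω).2.1) (fun ω => (f' ω).2.1) (congrArg Subtype.val h)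
      have h3 : a = a' := by
        have h4 := (f 1).2.2.1
        have h5 := (f' 1).2.2.1
        rw [← congrFun h2 1] at h5
        have h6 := (hG G O 1 (β (a * 1)) (β (a' * 1)) (hF.blk _) (hF.blk _) (H 1)).2.1
          (f 1).1 (f 1).2.1 h4 h5
        exact mul_right_cancel (hF.inj h6)
      subst h3
      congr 1
      funext ω
      exact Subtype.ext (congrFun h2 ω)
    · rintro ⟨ψ, hψ⟩
      obtain ⟨f, hf, rfl⟩ := irr_pc hψ.1
      obtain ⟨a, ha⟩ := (hU p q G O hp D β hF H f hf).1 hψ.2.1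
      refine ⟨⟨a, fun ω => ⟨f ω, hf ω, ha ω, fun s hs y => ?_⟩⟩, rfl⟩
      have h7 : pc H (fun ω g => s (f ω g)) = pc H f := by
        funext y
        rw [← pc_gal]
        exact hψ.2.2 s hs y
      exact congrFun (congrFun (pc_inj (fun ω => irr_gal s (hf ω)) hf h7) ω) y
  exact (Nat.card_congr (Equiv.ofBijective g hg)).symm

end Pool.Agent.Q162.RR
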