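import Pool.Agent.Q162.RR.CKW
import Pool.Agent.Q14.DM.CDN

/-! Job CKL of project RR (helper17), part 1: the condition for the characters of `Lw m L`. -/

set_option autoImplicit false

open scoped Classical

noncomputable section

namespace Pool.Agent.Q162.RR

open Pool.Agent.H254R3.IN hiding NN
open Pool.Agent.Y63.KR Pool.Agent.Q17.WR Pool.Agent.Q17.DC Pool.Agent.Q17.AM Pool.Agent.Q17.OS
open Pool.Agent.Q17.DM Pool.Agent.Q17.RB Pool.Agent.Q17.RR
open Pool.Agent.Q162.AM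
open Pool.Agent.Q14.DM (eW sum_eW fsum_sub)
open Pool.Agent.Q252.DM (ePw pc pc_irr irr_pc pc_inj dp)

variable {G : Type} [Group G] {r : ℕ} [Fact r.Prime]

/-- the sum over the families of elements in the class of `x` -/
def Sg {L : Type} [Fintype L] (i : L → G) (F : (Cy r → L) → ℂ) (x : Cy r → G) : ℂ :=
  ∑ l : Cy r → L, if ∃ a : Cy r, ∀ ω, IsConj (x (a * ω)) (i (l ω)) then F l else 0

theorem Sg_shift {L : Type} [Fintype L] (i : L → G) (F : (Cy r → L) → ℂ) (x : Cy r → G)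
    (b : Cy r) : Sg i (fun l => F (fun ω => l (b * ω))) x = Sg i F x := by
  unfold Sg
  let e : (Cy r → L) ≃ (Cy r → L) :=
    { toFun := fun l ω => l (b * ω)
      invFun := fun l ω => l (b⁻¹ * ω)
      left_inv := fun l => by
        funext ω
        change l (b * (b⁻¹ * ω)) = l ω
        rw [mul_inv_cancel_left]
      right_inv := fun l => by
        funext ω
        change l (b⁻¹ * (b * ω)) = l ω
        rw [inv_mul_cancel_left] }
  refine Fintype.sum_equiv e _ _ fun l => ?_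
  have h : (∃ a : Cy r, ∀ ω, IsConj (x (a * ω)) (i (l ω))) ↔
      ∃ a : Cy r, ∀ ω, IsConj (x (a * ω)) (i (e l ω)) := by
    constructor
    · rintro ⟨a, ha⟩
      refine ⟨a * b, fun ω => ?_⟩
      rw [mul_assoc]
      exact ha (b * ω)
    · rintro ⟨a, ha⟩
      refine ⟨a * b⁻¹, fun ω => ?_⟩
      rw [mul_assoc]
      have h1 := ha (b⁻¹ * ω)
      have h2 : e l (b⁻¹ * ω) = l ω := by
        change l (b * (b⁻¹ * ω)) = l ω
        rw [mul_inv_cancel_left]
      rw [h2] at h1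
      exact h1
  by_cases h1 : ∃ a : Cy r, ∀ ω, IsConj (x (a * ω)) (i (l ω))
  · rw [if_pos h1, if_pos (h.1 h1)]
    rfl
  · rw [if_neg h1, if_neg (fun h2 => h1 (h.2 h2))]

theorem Sg_nch {L : Type} [Group L] [Fintype L] (i : L → G) (f : Cy r → L → ℂ)
    (x : Cy r → G) :
    Sg i (fun l => nch f (⟨l, 1⟩ : Wc L r) / nch f (1 : Wc L r)) x =
      Sg i (fun l => prf f l / ∏ ω, f ω 1) x := by
  have hr0 : (r : ℂ) ≠ 0 := Nat.cast_ne_zero.2 (Fact.out : r.Prime).ne_zero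
  have h1 : ∀ b : Cy r, Sg i (fun l => prf (shf f b) l / ∏ ω, f ω 1) x =
      Sg i (fun l => prf f l / ∏ ω, f ω 1) x := by
    intro b
    rw [← Sg_shift i (fun l => prf f l / ∏ ω, f ω 1) x b⁻¹]
    simp only [prf_shf]
  have h2 : Sg i (fun l => nch f (⟨l, 1⟩ : Wc L r) / nch f (1 : Wc L r)) x =
      (r : ℂ)⁻¹ * ∑ b : Cy r, Sg i (fun l => prf (shf f b) l / ∏ ω, f ω 1) x := by
    unfold Sg
    rw [Finset.sum_comm, Finset.mul_sum]
    refine Finset.sum_congr rfl fun l _ => ?_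
    by_cases h : ∃ a : Cy r, ∀ ω, IsConj (x (a * ω)) (i (l ω))
    · simp only [if_pos h]
      rw [nch_one, nch_base, ← Finset.sum_div, ← div_div, div_eq_mul_inv (∑ a, _) (r : ℂ),
        mul_comm _ (r : ℂ)⁻¹, mul_div_assoc]
    · simp only [if_neg h, Finset.sum_const_zero, mul_zero]
  rw [h2, Finset.sum_congr rfl fun b _ => h1 b, Finset.sum_const, Finset.card_univ, fc_Cy,
    nsmul_eq_mul, inv_mul_cancel_left₀ hr0]

theorem Sg_cch {L : Type} [Group L] [Fintype L] (i : L → G) (θ : L → ℂ) (c : Cy r →* ℂˣ)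
    (x : Cy r → G) :
    Sg i (fun l => cch θ c (⟨l, 1⟩ : Wc L r) / cch θ c (1 : Wc L r)) x =
      Sg i (fun l => prf (fun _ => θ) l / ∏ _ω : Cy r, θ 1) x := by
  simp only [cch_one, cch_base]

theorem sum_Pw (L : Subgroup G) [Fintype L] (f : Cy r → L → ℂ) (x : Cy r → G) :
    ∑ᶠ y : {y : Pw (fun _ : Cy r => L) // IsConj (⟨x, 1⟩ : Wc G r) (y : Wc G r)},
      pc (fun _ => L) f y.1 / pc (fun _ => L) f 1 =
    Sg (Subtype.val : L → G) (fun l => prf f l / ∏ ω, f ω 1) x := by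
  let _ : Fintype (Pw (fun _ : Cy r => L)) := Fintype.ofEquiv _ (ePw (fun _ => L)).symm.toEquiv
  rw [fsum_sub (fun y : Pw (fun _ : Cy r => L) => IsConj (⟨x, 1⟩ : Wc G r) (y : Wc G r))
    (fun y => pc (fun _ => L) f y / pc (fun _ => L) f 1)]
  unfold Sg
  refine Fintype.sum_equiv (ePw (fun _ : Cy r => L)).toEquiv _ _ fun y => ?_
  have h : IsConj (⟨x, 1⟩ : Wc G r) (y : Wc G r) ↔
      ∃ a : Cy r, ∀ ω, IsConj (x (a * ω)) (((ePw (fun _ : Cy r => L)).toEquiv y ω : L) : G) := by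
    rw [cl1 (⟨x, 1⟩ : Wc G r) y.1 rfl]
    exact ⟨fun h => h.2, fun h => ⟨y.2.1, h⟩⟩
  by_cases h1 : IsConj (⟨x, 1⟩ : Wc G r) (y : Wc G r)
  · rw [if_pos h1, if_pos (h.1 h1)]
    rfl
  · rw [if_neg h1, if_neg (fun h2 => h1 (h.2 h2))]

/-- The condition for the characters of `Lw m L`. -/
theorem Ind_iff {p q : ℕ} [Fact p.Prime] [Fact q.Prime] [Fintype G] (hU : S_UNI)
    {O : ValuationSubring ℂ} (hp : (p : ℂ) ∈ O.nonunits) {D : Subgroup G}
    {β : Cy q → Set (G → ℂ)} (hF : Fam p q O D β) (L : Subgroup G) [Fintype L]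
    (m : Cy q → G) (f : Cy q → L → ℂ) (hf : ∀ ω, IsIrr (f ω)) (χ : Wc L q → ℂ)
    (hχ : ∀ x : Cy q → G, Sg (Subtype.val : L → G)
      (fun l => χ (⟨l, 1⟩ : Wc L q) / χ (1 : Wc L q)) x =
      Sg (Subtype.val : L → G) (fun l => prf f l / ∏ ω, f ω 1) x) :
    Ind O (FX β) {x | x.right = 1} (Lw m L) (fun y => χ (eW m L y)) ↔
      ∃ a : Cy q, ∀ ω, Ind O (β (a * ω)) Set.univ L (f ω) := by
  have h1 := hU p q G O hp D β hF (fun _ => L) f hf
  rw [← h1]
  have h2 : ∀ x : Wc G q, x.right = 1 →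
      ∑ᶠ y : {y : Lw m L // IsConj x (y : Wc G q)}, χ (eW m L y.1) / χ (eW m L 1) =
      ∑ᶠ y : {y : Pw (fun _ : Cy q => L) // IsConj x (y : Wc G q)},
        pc (fun _ => L) f y.1 / pc (fun _ => L) f 1 := by
    rintro ⟨x, a⟩ hx
    have ha : a = 1 := hx
    subst ha
    rw [sum_Pw, sum_eW]
    exact hχ x
  constructor
  · intro h χ' hχ' x hx
    have h3 := h χ' hχ' x hx
    rw [h2 x hx] at h3
    exact h3
  · intro h χ' hχ' x hx
    have h3 := h χ' hχ' x hx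
    change omega χ' x - ∑ᶠ y : {y : Lw m L // IsConj x (y : Wc G q)},
      χ (eW m L y.1) / χ (eW m L 1) ∈ O.nonunits
    rw [h2 x hx]
    exact h3

end Pool.Agent.Q162.RR
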